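import Pool.Agent.Helper59.SX.Cost
import Pool.Agent.Helper59.SX.Bridge

/-!
# MP_15c9fc_an: cost, first l2-Betti number and exactness
-/

namespace Pool.Agent.Results.MP_15c9fc_an.CostAndBetti

open Pool.Agent.Helper59.SX

/-- Let `G` be an infinite group generated by a finite family of `k` elements. Suppose that one of
the following holds.
(a) `G` has an element of infinite order, and the first l2-Betti number of `G` is positive or the
Bernoulli actions of `G` have cost greater than one.
(b) `G` has a finite subgroup `H` with `2 sqrt (|H| k) < |H| (C - 1) + 1`, where `C` is at most the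
first l2-Betti number plus one or at most the cost of the Bernoulli actions (for `C > 1` this is
satisfied if `G` has sufficiently large finite subgroups).
(c) `G` has an infinite finitely generated subgroup with smaller first l2-Betti number.
Then the full group C*-algebra of `G`, and of every group having `G` as a subquotient, is not
exact. -/
theorem result {G I : Type} [Group G] [Infinite G] [Fintype I] (s : I → G)
    (hs : Subgroup.closure (Set.range s) = ⊤)
    (h : (∃ C : ℝ, (C ≤ 1 + l2Betti s ∨ BernoulliCostGE G C) ∧
        ((1 < C ∧ ∃ c : G, ¬ IsOfFinOrder c) ∨
          ∃ H : Subgroup G, Finite H ∧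
            2 * Real.sqrt (Nat.card H * Fintype.card I) < Nat.card H * (C - 1) + 1)) ∨
      ∃ (J : Type) (_ : Fintype J) (y : J → G), Infinite (Subgroup.closure (Set.range y)) ∧
        l2Betti y < l2Betti s)
    (Γ : Type) [Group Γ] (hΓ : HasSubquotient Γ G) : FullNotExact Γ := by
  simp only [l2Betti_eq, bernoulliCostGE_iff] at h
  exact fullNotExact_of (Pool.Agent.Helper59.EXR.main_final s hs h Γ hΓ)

end Pool.Agent.Results.MP_15c9fc_an.CostAndBetti
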