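import Pool.Agent.Helper59.SX.PP
import Pool.Agent.Helper59.SX.Bridge

/-!
# MP_15c9fc_an: full C*-algebras of groups of piecewise projective homeomorphisms of the line
-/

namespace Pool.Agent.Results.MP_15c9fc_an.PiecewiseProjective

open Pool.Agent.Helper59.SX

/-- Let `W` be a group of piecewise projective homeomorphisms of the line with small free pairs.
Then the full group C*-algebra of every group which has `W` as a subquotient is not exact. The group
of Lodha and Moore and Monod's groups `H(A)` (the elements are the `f` with `InMonod A f`), `A` any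
subring of the real numbers different from the integers, are such groups. -/
theorem result :
    (∀ W : Subgroup (ℝ ≃ₜ ℝ), (∀ f ∈ W, IsPP f) → HasSmallFreePairs W →
      ∀ (Γ : Type) [Group Γ], HasSubquotient Γ W → FullNotExact Γ) ∧
    ((∀ f ∈ LodhaMoore, IsPP f) ∧ HasSmallFreePairs LodhaMoore) ∧
    ∀ A : Subring ℝ, (∃ a ∈ A, ∀ n : ℤ, a ≠ (n : ℝ)) →
      ∃ W : Subgroup (ℝ ≃ₜ ℝ), (∀ f, f ∈ W ↔ InMonod A f) ∧
        (∀ f ∈ W, IsPP f) ∧ HasSmallFreePairs W :=
  ⟨fun W hW hs Γ _ hΓ => fullNotExact_of (Pool.Agent.Helper59.PP.pp_final W hW hs Γ hΓ),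
    ⟨Pool.Agent.Helper59.PP.isPP_lodhaMoore, Pool.Agent.Helper59.PP.lodhaMoore_small⟩,
    fun A hA => ⟨Pool.Agent.Helper59.PP.MonodLine A, mem_monodLine A,
      Pool.Agent.Helper59.PP.isPP_monodLine A, Pool.Agent.Helper59.PP.monodLine_small A hA⟩⟩

end Pool.Agent.Results.MP_15c9fc_an.PiecewiseProjective
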