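import Pool.Agent.Helper59.EXP.Power
import Pool.Agent.Helper59.SX.Bridge

/-!
# MP_15c9fc_an: groups whose relations contain large powers
-/

namespace Pool.Agent.Results.MP_15c9fc_an.PowerRelations

open Pool.Agent.Helper59.SX

/-- Let `G` be a group with two elements `s 0`, `s 1` such that every nontrivial element `w` of the
free group on two generators with `w(s 0, s 1) = 1` has a reduced word containing a 250-th power
`A A ... A` of a nonempty word `A`. Then the full group C*-algebra of `G`, and of every group
having `G` as a subquotient, is not exact. -/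
theorem result {G : Type} [Group G] (s : Fin 2 → G)
    (h : ∀ w : FreeGroup (Fin 2), w ≠ 1 → FreeGroup.lift s w = 1 →
      ∃ A : List (Fin 2 × Bool), A ≠ [] ∧ (List.replicate 250 A).flatten <:+: w.toWord)
    (Γ : Type) [Group Γ] (hΓ : HasSubquotient Γ G) : FullNotExact Γ :=
  fullNotExact_of (Pool.Agent.Helper59.EXP.power_final s h Γ hΓ)

end Pool.Agent.Results.MP_15c9fc_an.PowerRelations
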