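import Pool.Agent.Helper59.EX.Final1
import Pool.Agent.Helper59.SX.Bridge

/-!
# MP_15c9fc_an: full C*-algebras of wreath products over nonamenable groups
-/

namespace Pool.Agent.Results.MP_15c9fc_an.WreathProducts

open Pool.Agent.Helper59.SX

/-- A discrete group is amenable if it has a finitely additive left invariant probability
measure defined on all subsets. -/
def IsAmenable (G : Type) [Group G] : Prop :=
  ∃ m : Set G → ℝ, (∀ s, 0 ≤ m s) ∧ m Set.univ = 1 ∧
    (∀ s t, Disjoint s t → m (s ∪ t) = m s + m t) ∧
    ∀ (g : G) (s : Set G), m ((fun h => g * h) '' s) = m s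

/-- A subgroup of `Γ` maps onto the restricted wreath product `L wr G`, that is, onto the subgroup
of the elements of finite support of (mathlib's) regular wreath product. -/
def HasWreathSubquotient (Γ L G : Type) [Group Γ] [Group L] [Group G] : Prop :=
  ∃ (Λ : Subgroup Γ) (p : Λ →* RegularWreathProduct L G),
    Set.range p = {w | (Function.mulSupport w.left).Finite}

/-- Let `G` be a nonamenable discrete group. If `L` is an infinite abelian group, or a finite
abelian group with at least `n = n(G)` elements, then the full group C*-algebra of the restricted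
wreath product `L wr G`, and of every group which has `L wr G` as a subquotient, is not exact. -/
theorem result (G : Type) [Group G] (hG : ¬ IsAmenable G) :
    ∃ n : ℕ, ∀ (L : Type) [CommGroup L], (Infinite L ∨ n ≤ Nat.card L) →
      ∀ (Γ : Type) [Group Γ], HasWreathSubquotient Γ L G → FullNotExact Γ := by
  obtain ⟨n, hn⟩ := Pool.Agent.Helper59.EX.wreath_final G hG
  refine ⟨n, fun L _ hL Γ _ h => fullNotExact_of (hn L hL Γ ?_)⟩
  obtain ⟨Λ, p, hp⟩ := h
  have h1 : ∀ x : Λ, p x ∈ Pool.Agent.Helper59.EX.restrictedWreath L G := by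
    intro x
    have h2 : p x ∈ Set.range p := ⟨x, rfl⟩
    rw [hp] at h2
    exact h2
  refine ⟨Λ, p.codRestrict _ h1, ?_⟩
  rintro ⟨w, hw⟩
  have h3 : w ∈ Set.range p := by
    rw [hp]
    exact hw
  obtain ⟨x, hx⟩ := h3
  exact ⟨x, Subtype.ext hx⟩

end Pool.Agent.Results.MP_15c9fc_an.WreathProducts
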